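import Mathlib

/-!
# The bound `(p+q-1)!` for higher-order Schwarzian derivatives fails for `p ≠ q`

For `f(z) = z (1 - c z) / (1 - z²)` with `c = 255/257` the bound fails for every pair `(1, q)`
with `q ≥ 2`.
-/

namespace Pool.Agent.Results.MP_9404a8_an.HigherSchwarzianBoundFails

open Complex Metric Set Filter Topology

/-- The class `𝒮` of normalised univalent functions on the unit disc. -/
def ClassS : Set (ℂ → ℂ) :=
  {f | DifferentiableOn ℂ f (ball 0 1) ∧ InjOn f (ball 0 1) ∧ f 0 = 0 ∧ deriv f 0 = 1}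

/-- `(f(z)-f(w))/(z-w) · z/f(z) · w/f(w)`, where the first factor is `f'(z)` for `z = w` and
`z/f(z)` is read as `1` at `z = 0`. -/
noncomputable def bracket (f : ℂ → ℂ) (z w : ℂ) : ℂ :=
  (if z = w then deriv f z else (f z - f w) / (z - w)) *
    (if z = 0 then 1 else z / f z) * (if w = 0 then 1 else w / f w)

/-- `F` is the holomorphic branch of `log bracket` on the bidisc with `F(0,0) = 0`. -/
def IsBranch (f : ℂ → ℂ) (F : ℂ → ℂ → ℂ) : Prop :=
  DifferentiableOn ℂ (fun x : ℂ × ℂ => F x.1 x.2) (ball 0 1 ×ˢ ball 0 1) ∧ F 0 0 = 0 ∧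
    ∀ z ∈ ball (0 : ℂ) 1, ∀ w ∈ ball (0 : ℂ) 1, Complex.exp (F z w) = bracket f z w

/-- `G^{[p,q]}(z,w) = ∂^{p+q} F / ∂z^p ∂w^q`. -/
noncomputable def G (F : ℂ → ℂ → ℂ) (p q : ℕ) (z w : ℂ) : ℂ :=
  iteratedDeriv p (fun ζ => iteratedDeriv q (fun ω => F ζ ω) w) z

/-- the higher-order Schwarzian derivative `S^{[p,q]}(z) = G^{[p,q]}(z,z)` -/
noncomputable def Sd (F : ℂ → ℂ → ℂ) (p q : ℕ) (z : ℂ) : ℂ := G F p q z z

/-- the constant `c` -/
noncomputable def c : ℝ := 255 / 257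

/-- the function `f` -/
noncomputable def f (z : ℂ) : ℂ := z * (1 - c * z) / (1 - z ^ 2)

/-- the automorphism `φ(z) = (c-z)/(1-cz)` -/
noncomputable def φ (z : ℂ) : ℂ := (c - z) / (1 - c * z)

/-- the explicit branch -/
noncomputable def F₀ (z w : ℂ) : ℂ := Complex.log (1 - w * φ z) - Complex.log (1 - c * w)

theorem c_pos : 0 < c := by unfold c; norm_num
theorem c_lt : c < 1 := by unfold c; norm_num

theorem norm_cz {z : ℂ} (hz : ‖z‖ < 1) : ‖(c : ℂ) * z‖ < 1 := by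
  rw [norm_mul, norm_real, Real.norm_eq_abs, abs_of_pos c_pos]
  nlinarith [c_lt, c_pos, norm_nonneg z]

theorem one_sub_ne {u : ℂ} (hu : ‖u‖ < 1) : 1 - u ≠ 0 := by
  intro h
  have : u = 1 := by linear_combination -h
  rw [this] at hu; simp at hu

theorem one_sub_slit {u : ℂ} (hu : ‖u‖ < 1) : 1 - u ∈ slitPlane := by
  left
  have := re_le_norm u
  simp only [sub_re, one_re]; linarith

theorem norm_φ {z : ℂ} (hz : ‖z‖ < 1) : ‖φ z‖ < 1 := by
  unfold φ
  have h1 := one_sub_ne (norm_cz hz)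
  rw [norm_div, div_lt_one (norm_pos_iff.mpr h1)]
  apply lt_of_pow_lt_pow_left₀ 2 (norm_nonneg _)
  rw [← normSq_eq_norm_sq, ← normSq_eq_norm_sq, normSq_apply, normSq_apply]
  have h2 : z.re * z.re + z.im * z.im < 1 := by
    rw [← normSq_apply, normSq_eq_norm_sq]
    nlinarith [norm_nonneg z]
  simp only [sub_re, ofReal_re, sub_im, ofReal_im, one_re, one_im, mul_re, mul_im]
  have hc : 0 < 1 - c ^ 2 := by nlinarith [c_lt, c_pos]
  have h3 := mul_pos hc (sub_pos.mpr h2)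
  nlinarith

theorem norm_wφ {z w : ℂ} (hz : ‖z‖ < 1) (hw : ‖w‖ < 1) : ‖w * φ z‖ < 1 := by
  rw [norm_mul]
  nlinarith [norm_nonneg w, norm_nonneg (φ z), norm_φ hz]

theorem one_sub_sq_ne {z : ℂ} (hz : ‖z‖ < 1) : 1 - z ^ 2 ≠ 0 := by
  apply one_sub_ne
  rw [norm_pow]
  nlinarith [norm_nonneg z]

theorem P_ne {z w : ℂ} (hz : ‖z‖ < 1) (hw : ‖w‖ < 1) : 1 - c * (z + w) + z * w ≠ 0 := by
  have h1 := one_sub_ne (norm_cz hz)
  have h2 := one_sub_ne (norm_wφ hz hw)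
  have : 1 - c * (z + w) + z * w = (1 - c * z) * (1 - w * φ z) := by
    unfold φ; field_simp; ring
  rw [this]
  exact mul_ne_zero h1 h2

theorem f_sub {z w : ℂ} (hz : ‖z‖ < 1) (hw : ‖w‖ < 1) :
    f z - f w = (z - w) * (1 - c * (z + w) + z * w) / ((1 - z ^ 2) * (1 - w ^ 2)) := by
  have h1 := one_sub_sq_ne hz
  have h2 := one_sub_sq_ne hw
  unfold f
  field_simp
  ring

theorem f_deriv {z : ℂ} (hz : ‖z‖ < 1) :
    HasDerivAt f ((1 - c * (z + z) + z * z) / (1 - z ^ 2) ^ 2) z := by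
  have h1 := one_sub_sq_ne hz
  have ha : HasDerivAt (fun z : ℂ => z * (1 - c * z)) (1 - 2 * c * z) z := by
    exact ((hasDerivAt_id' z).fun_mul
      (((hasDerivAt_id' z).const_mul (c : ℂ)).const_sub 1)).congr_deriv (by ring)
  have hb : HasDerivAt (fun z : ℂ => 1 - z ^ 2) (-(2 * z)) z := by
    have h := ((hasDerivAt_pow 2 z)).const_sub 1
    simpa using h
  have h := ha.fun_div hb h1
  have e : ((1 - 2 * c * z) * (1 - z ^ 2) - z * (1 - c * z) * -(2 * z)) / (1 - z ^ 2) ^ 2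
      = (1 - c * (z + z) + z * z) / (1 - z ^ 2) ^ 2 := by
    congr 1; ring
  rw [e] at h
  exact h

theorem f_mem : f ∈ ClassS := by
  refine ⟨fun z hz => ?_, ?_, by simp [f], ?_⟩
  · exact (f_deriv (by simpa using hz)).differentiableAt.differentiableWithinAt
  · intro z hz w hw h
    have hz' : ‖z‖ < 1 := by simpa using hz
    have hw' : ‖w‖ < 1 := by simpa using hw
    have h1 := f_sub hz' hw'
    rw [h, sub_self] at h1
    have h2 := one_sub_sq_ne hz'
    have h3 := one_sub_sq_ne hw'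
    have h4 := P_ne hz' hw'
    have h5 : (z - w) * (1 - c * (z + w) + z * w) = 0 := by
      have := (div_eq_zero_iff.mp h1.symm).resolve_right (mul_ne_zero h2 h3)
      exact this
    have h6 := (mul_eq_zero.mp h5).resolve_right h4
    exact sub_eq_zero.mp h6
  · rw [(f_deriv (by simp)).deriv]; simp

theorem f_quot {z : ℂ} (hz : ‖z‖ < 1) :
    (if z = 0 then 1 else z / f z) = (1 - z ^ 2) / (1 - c * z) := by
  by_cases h : z = 0
  · rw [if_pos h, h]; simp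
  · rw [if_neg h]
    have h1 := one_sub_sq_ne hz
    have h2 := one_sub_ne (norm_cz hz)
    unfold f
    field_simp

theorem bracket_eq {z w : ℂ} (hz : ‖z‖ < 1) (hw : ‖w‖ < 1) :
    bracket f z w = (1 - w * φ z) / (1 - c * w) := by
  have h1 := one_sub_sq_ne hz
  have h2 := one_sub_sq_ne hw
  have h3 := one_sub_ne (norm_cz hz)
  have h4 := one_sub_ne (norm_cz hw)
  have h5 : (if z = w then deriv f z else (f z - f w) / (z - w))
      = (1 - c * (z + w) + z * w) / ((1 - z ^ 2) * (1 - w ^ 2)) := by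
    by_cases h : z = w
    · subst h
      rw [if_pos rfl, (f_deriv hz).deriv]
      ring
    · rw [if_neg h, f_sub hz hw]
      have : z - w ≠ 0 := sub_ne_zero.mpr h
      field_simp
  rw [bracket, h5, f_quot hz, f_quot hw]
  unfold φ
  field_simp
  ring

theorem φ_deriv {z : ℂ} (hz : ‖z‖ < 1) :
    HasDerivAt φ (-(1 - (c : ℂ) ^ 2) / (1 - c * z) ^ 2) z := by
  have h1 := one_sub_ne (norm_cz hz)
  have h := ((hasDerivAt_id' z).const_sub (c : ℂ)).fun_div
    (((hasDerivAt_id' z).const_mul (c : ℂ)).const_sub 1) h1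
  exact h.congr_deriv (by congr 1; ring)

theorem F₀_branch : IsBranch f F₀ := by
  refine ⟨?_, by simp [F₀], ?_⟩
  · intro x hx
    have hz : ‖x.1‖ < 1 := by simpa using hx.1
    have hw : ‖x.2‖ < 1 := by simpa using hx.2
    have h1 : DifferentiableAt ℂ (fun x : ℂ × ℂ => 1 - x.2 * φ x.1) x := by
      have : DifferentiableAt ℂ (fun x : ℂ × ℂ => φ x.1) x :=
        (φ_deriv hz).differentiableAt.comp x differentiableAt_fst
      exact (differentiableAt_const _).sub (differentiableAt_snd.mul this)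
    have h2 : DifferentiableAt ℂ (fun x : ℂ × ℂ => 1 - (c : ℂ) * x.2) x :=
      (differentiableAt_const _).sub (differentiableAt_snd.const_mul _)
    exact ((h1.clog (one_sub_slit (norm_wφ hz hw))).sub
      (h2.clog (one_sub_slit (norm_cz hw)))).differentiableWithinAt
  · intro z hz w hw
    have hz' : ‖z‖ < 1 := by simpa using hz
    have hw' : ‖w‖ < 1 := by simpa using hw
    rw [bracket_eq hz' hw', F₀, Complex.exp_sub, exp_log (one_sub_ne (norm_wφ hz' hw')),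
      exp_log (one_sub_ne (norm_cz hw'))]

/-- uniqueness of the branch -/
theorem branch_unique {g : ℂ → ℂ} {F₁ F₂ : ℂ → ℂ → ℂ} (h₁ : IsBranch g F₁) (h₂ : IsBranch g F₂)
    {z w : ℂ} (hz : z ∈ ball (0 : ℂ) 1) (hw : w ∈ ball (0 : ℂ) 1) : F₁ z w = F₂ z w := by
  set D : Set (ℂ × ℂ) := ball (0 : ℂ) 1 ×ˢ ball (0 : ℂ) 1 with hD
  have hconv : Convex ℝ D := (convex_ball _ _).prod (convex_ball _ _)
  have hpre : IsPreconnected D := hconv.isPreconnected
  set d : ℂ × ℂ → ℂ := fun x => F₁ x.1 x.2 - F₂ x.1 x.2 with hd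
  have hdc : ContinuousOn d D := h₁.1.continuousOn.sub h₂.1.continuousOn
  have hexp : ∀ x ∈ D, ∃ n : ℤ, d x = n * (2 * Real.pi * I) := by
    intro x hx
    have e : Complex.exp (d x) = 1 := by
      rw [hd]
      simp only
      rw [Complex.exp_sub, h₁.2.2 _ hx.1 _ hx.2, ← h₂.2.2 _ hx.1 _ hx.2]
      exact div_self (Complex.exp_ne_zero _)
    rw [Complex.exp_eq_one_iff] at e
    exact e
  -- the imaginary part divided by `2π` is a continuous integer valued function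
  set e : ℂ × ℂ → ℝ := fun x => (d x).im / (2 * Real.pi) with he
  have hec : ContinuousOn e D := (continuous_im.comp_continuousOn hdc).div_const _
  have hpi : (2 * Real.pi) ≠ 0 := by positivity
  have hint : ∀ x ∈ D, ∃ n : ℤ, e x = n ∧ d x = n * (2 * Real.pi * I) := by
    intro x hx
    obtain ⟨n, hn⟩ := hexp x hx
    refine ⟨n, ?_, hn⟩
    rw [he]
    simp only
    rw [hn]
    simp
  have h00 : ((0 : ℂ), (0 : ℂ)) ∈ D := by simp [hD]
  have hzw : (z, w) ∈ D := ⟨hz, hw⟩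
  have he0 : e (0, 0) = 0 := by
    rw [he, hd]; simp [h₁.2.1, h₂.2.1]
  have heq : e (z, w) = 0 := by
    by_contra hne
    obtain ⟨n, hn, -⟩ := hint _ hzw
    have hn0 : n ≠ 0 := by
      rintro rfl; exact hne (by rw [hn]; simp)
    have himg := hpre.image e hec
    have hord := himg.ordConnected
    have m0 : (0 : ℝ) ∈ e '' D := ⟨_, h00, he0⟩
    have mn : (n : ℝ) ∈ e '' D := ⟨_, hzw, hn⟩
    rcases lt_or_gt_of_ne hn0 with h | h
    · have h1 : (n : ℝ) ≤ -1 := by exact_mod_cast (by omega : n ≤ -1)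
      have := hord.out mn m0 (show (-(1 / 2) : ℝ) ∈ Icc (n : ℝ) 0 from ⟨by linarith, by norm_num⟩)
      obtain ⟨x, hx, hxe⟩ := this
      obtain ⟨k, hk, -⟩ := hint x hx
      rw [hk] at hxe
      have h2 : (2 * k : ℤ) = -1 := by
        have : (2 * (k : ℝ)) = -1 := by linarith
        exact_mod_cast this
      omega
    · have h1 : (1 : ℝ) ≤ n := by exact_mod_cast (by omega : 1 ≤ n)
      have := hord.out m0 mn (show (1 / 2 : ℝ) ∈ Icc (0 : ℝ) n from ⟨by norm_num, by linarith⟩)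
      obtain ⟨x, hx, hxe⟩ := this
      obtain ⟨k, hk, -⟩ := hint x hx
      rw [hk] at hxe
      have h2 : (2 * k : ℤ) = 1 := by
        have : (2 * (k : ℝ)) = 1 := by linarith
        exact_mod_cast this
      omega
  obtain ⟨n, hn, hn2⟩ := hint _ hzw
  rw [heq] at hn
  have hn0 : n = 0 := by exact_mod_cast hn.symm
  rw [hn0] at hn2
  simp only [Int.cast_zero, zero_mul] at hn2
  exact sub_eq_zero.mp hn2

/-- derivatives of `w ↦ log (1 - a w)` -/
theorem iter_log {a : ℂ} (q : ℕ) : ∀ w : ℂ, ‖w * a‖ < 1 →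
    iteratedDeriv (q + 1) (fun w => Complex.log (1 - w * a)) w
      = -((q.factorial : ℂ) * a ^ (q + 1) / (1 - w * a) ^ (q + 1)) := by
  induction q with
  | zero =>
    intro w hw
    have h := ((hasDerivAt_id' w).mul_const a).const_sub 1
    rw [zero_add, iteratedDeriv_one, (h.clog (one_sub_slit hw)).deriv]
    simp
    ring
  | succ q ih =>
    intro w hw
    rw [iteratedDeriv_succ]
    have hopen : IsOpen {w : ℂ | ‖w * a‖ < 1} :=
      isOpen_lt (continuous_id.mul continuous_const).norm continuous_const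
    have hev : iteratedDeriv (q + 1) (fun w => Complex.log (1 - w * a)) =ᶠ[𝓝 w]
        fun w => -((q.factorial : ℂ) * a ^ (q + 1) / (1 - w * a) ^ (q + 1)) := by
      filter_upwards [hopen.mem_nhds hw] with x hx
      exact ih x hx
    rw [hev.deriv_eq]
    have h0 := one_sub_ne hw
    have h := (((hasDerivAt_id' w).mul_const a).const_sub 1).fun_pow (q + 1)
    have h2 := ((hasDerivAt_const w ((q.factorial : ℂ) * a ^ (q + 1))).fun_div h
      (pow_ne_zero _ h0)).fun_neg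
    rw [h2.deriv, Nat.factorial_succ]
    push_cast
    field_simp
    simp
    ring

/-- the higher-order Schwarzian derivative `S^{[1,q]}` of `f` -/
theorem Sd_eq (q : ℕ) {z : ℂ} (hz : ‖z‖ < 1) :
    Sd F₀ 1 (q + 1) z = ((q + 1).factorial : ℂ) * (1 - (c : ℂ) ^ 2) * (c - z) ^ q
      / (1 - 2 * c * z + z ^ 2) ^ (q + 2) := by
  have hinner : ∀ ζ : ℂ, ‖ζ‖ < 1 → iteratedDeriv (q + 1) (fun ω => F₀ ζ ω) z
      = -((q.factorial : ℂ) * (φ ζ) ^ (q + 1) / (1 - z * φ ζ) ^ (q + 1))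
        + (q.factorial : ℂ) * (c : ℂ) ^ (q + 1) / (1 - z * c) ^ (q + 1) := by
    intro ζ hζ
    have hcz : ‖z * (c : ℂ)‖ < 1 := by rw [mul_comm]; exact norm_cz hz
    have e : (fun ω => F₀ ζ ω) = (fun ω => Complex.log (1 - ω * φ ζ))
        - (fun ω => Complex.log (1 - ω * (c : ℂ))) := by
      funext ω
      simp only [F₀, Pi.sub_apply]
      rw [mul_comm (c : ℂ) ω]
    rw [e, iteratedDeriv_sub, iter_log q z (norm_wφ hζ hz), iter_log q z hcz]
    · ring
    · have : AnalyticAt ℂ (fun ω => 1 - ω * φ ζ) z := by fun_prop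
      exact (this.clog (one_sub_slit (norm_wφ hζ hz))).contDiffAt
    · have : AnalyticAt ℂ (fun ω => 1 - ω * (c : ℂ)) z := by fun_prop
      exact (this.clog (one_sub_slit hcz)).contDiffAt
  rw [Sd, G, iteratedDeriv_one]
  have hev : (fun ζ => iteratedDeriv (q + 1) (fun ω => F₀ ζ ω) z) =ᶠ[𝓝 z]
      fun ζ => -((q.factorial : ℂ) * (φ ζ) ^ (q + 1) / (1 - z * φ ζ) ^ (q + 1))
        + (q.factorial : ℂ) * (c : ℂ) ^ (q + 1) / (1 - z * c) ^ (q + 1) := by
    have hopen : IsOpen {w : ℂ | ‖w‖ < 1} := isOpen_lt continuous_norm continuous_const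
    filter_upwards [hopen.mem_nhds hz] with x hx
    exact hinner x hx
  rw [hev.deriv_eq]
  have h0 := one_sub_ne (norm_wφ hz hz)
  have h1 := one_sub_ne (norm_cz hz)
  have hφ := φ_deriv hz
  have hnum := (hφ.fun_pow (q + 1)).const_mul (q.factorial : ℂ)
  have hden := ((hφ.const_mul z).const_sub 1).fun_pow (q + 1)
  have hall := ((hnum.fun_div hden (pow_ne_zero _ h0)).fun_neg).add_const
    ((q.factorial : ℂ) * (c : ℂ) ^ (q + 1) / (1 - z * c) ^ (q + 1))
  rw [hall.deriv]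
  have hQ : 1 - z * φ z = (1 - 2 * c * z + z ^ 2) / (1 - c * z) := by
    have e0 : φ z * (1 - c * z) = c - z := by
      unfold φ; exact div_mul_cancel₀ _ h1
    rw [eq_div_iff h1]
    linear_combination (-z) * e0
  have hQ0 : 1 - 2 * c * z + z ^ 2 ≠ 0 := by
    have := P_ne hz hz
    intro h; apply this; rw [← h]; ring
  rw [hQ, Nat.factorial_succ]
  have hφe : φ z = (c - z) / (1 - c * z) := rfl
  rw [hφe]
  simp only [Nat.add_sub_cancel]
  push_cast
  set A : ℂ := (c : ℂ) - z with hA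
  set B : ℂ := 1 - (c : ℂ) * z with hB
  set Q : ℂ := 1 - 2 * (c : ℂ) * z + z ^ 2 with hQdef
  have hrel : Q = B - z * A := by rw [hQdef, hB, hA]; ring
  have e1 : (A / B) ^ (q + 1) = (A / B) ^ q * (A / B) := pow_succ _ _
  have e2 : (Q / B) ^ (q + 1) = (Q / B) ^ q * (Q / B) := pow_succ _ _
  have e3 : Q ^ (q + 2) = Q ^ q * Q ^ 2 := pow_add _ _ _
  rw [e1, e2, e3, div_pow, div_pow]
  have hBq : B ^ q ≠ 0 := pow_ne_zero _ h1
  have hQq : Q ^ q ≠ 0 := pow_ne_zero _ hQ0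
  generalize hAA : A ^ q = a at *
  generalize hBB : B ^ q = b at *
  generalize hQQ : Q ^ q = d at *
  field_simp
  rw [hrel]
  ring

theorem Sd_congr {g : ℂ → ℂ} {F₁ F₂ : ℂ → ℂ → ℂ} (h₁ : IsBranch g F₁) (h₂ : IsBranch g F₂)
    (p q : ℕ) {z : ℂ} (hz : z ∈ ball (0 : ℂ) 1) : Sd F₁ p q z = Sd F₂ p q z := by
  have hn : ball (0 : ℂ) 1 ∈ 𝓝 z := isOpen_ball.mem_nhds hz
  have h1 : ∀ ζ ∈ ball (0 : ℂ) 1, iteratedDeriv q (fun ω => F₁ ζ ω) z
      = iteratedDeriv q (fun ω => F₂ ζ ω) z := by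
    intro ζ hζ
    have : (fun ω => F₁ ζ ω) =ᶠ[𝓝 z] (fun ω => F₂ ζ ω) := by
      filter_upwards [hn] with w hw
      exact branch_unique h₁ h₂ hζ hw
    exact this.iteratedDeriv_eq q
  have h2 : (fun ζ => iteratedDeriv q (fun ω => F₁ ζ ω) z) =ᶠ[𝓝 z]
      (fun ζ => iteratedDeriv q (fun ω => F₂ ζ ω) z) := by
    filter_upwards [hn] with ζ hζ
    exact h1 ζ hζ
  exact h2.iteratedDeriv_eq p

theorem alg (K a b d e : ℝ) (hd : d ≠ 0) (r : ℕ) : K * a * b ^ (r + 1) / d ^ (r + 3) * e ^ (r + 3)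
    = K * ((a * b * e ^ 3 / d ^ 3) * (b * e / d) ^ r) := by
  rw [pow_succ b r, pow_add d r 3, pow_add e r 3, div_pow, mul_pow]
  have : d ^ r ≠ 0 := pow_ne_zero _ hd
  field_simp

/-- **Disproof of Q1.** There is a single function `f ∈ 𝒮` for which the bound
`‖S_f^{[p,q]}‖ ≤ (p+q-1)!` fails for every pair `(p,q) = (1,q)` with `q ≥ 2`. -/
theorem result : ∃ f ∈ ClassS, (∃ F, IsBranch f F) ∧ ∀ F, IsBranch f F → ∀ q : ℕ, 2 ≤ q →
    ∃ z ∈ ball (0 : ℂ) 1,
      (((1 + q - 1).factorial : ℕ) : ℝ) < ‖Sd F 1 q z‖ * (1 - ‖z‖ ^ 2) ^ (1 + q) := by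
  refine ⟨f, f_mem, ⟨F₀, F₀_branch⟩, ?_⟩
  intro F hF q hq
  have hz : ‖((5 / 6 : ℝ) : ℂ)‖ < 1 := by
    rw [norm_real, Real.norm_eq_abs, abs_of_pos (by norm_num)]; norm_num
  have hzm : ((5 / 6 : ℝ) : ℂ) ∈ ball (0 : ℂ) 1 := by simpa using hz
  refine ⟨((5 / 6 : ℝ) : ℂ), hzm, ?_⟩
  obtain ⟨r, rfl⟩ : ∃ r, q = r + 1 + 1 := ⟨q - 2, by omega⟩
  rw [Sd_congr hF F₀_branch 1 _ hzm, Sd_eq (r + 1) hz]
  have e1 : (((r + 1 + 1).factorial : ℂ)) * (1 - (c : ℂ) ^ 2) * (c - ((5 / 6 : ℝ) : ℂ)) ^ (r + 1)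
      / (1 - 2 * c * ((5 / 6 : ℝ) : ℂ) + ((5 / 6 : ℝ) : ℂ) ^ 2) ^ (r + 1 + 2)
      = ((((r + 1 + 1).factorial : ℝ) * (1 - c ^ 2) * (c - 5 / 6) ^ (r + 1)
        / (1 - 2 * c * (5 / 6) + (5 / 6) ^ 2) ^ (r + 1 + 2) : ℝ) : ℂ) := by
    push_cast; rfl
  have hnz : ‖((5 / 6 : ℝ) : ℂ)‖ = 5 / 6 := by
    rw [norm_real, Real.norm_eq_abs, abs_of_pos (by norm_num)]
  rw [e1, norm_real, Real.norm_eq_abs, hnz]
  have ha : (1 - c ^ 2 : ℝ) = 1024 / 66049 := by unfold c; norm_num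
  have hb : (c - 5 / 6 : ℝ) = 245 / 1542 := by unfold c; norm_num
  have hd : (1 - 2 * c * (5 / 6) + (5 / 6) ^ 2 : ℝ) = 377 / 9252 := by unfold c; norm_num
  rw [ha, hb, hd]
  have hfac : 0 < ((r + 1 + 1).factorial : ℝ) := by exact_mod_cast Nat.factorial_pos _
  rw [abs_of_pos (by positivity)]
  have e2 : 1 + (r + 1 + 1) - 1 = r + 1 + 1 := by omega
  rw [e2]
  have e3 : ((r + 1 + 1).factorial : ℝ) * (1024 / 66049) * (245 / 1542) ^ (r + 1)
      / (377 / 9252) ^ (r + 1 + 2) * (1 - (5 / 6 : ℝ) ^ 2) ^ (1 + (r + 1 + 1))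
      = ((r + 1 + 1).factorial : ℝ) * (((1024 / 66049) * (245 / 1542) * (1 - (5 / 6 : ℝ) ^ 2) ^ 3
        / (377 / 9252) ^ 3) * ((245 / 1542) * (1 - (5 / 6 : ℝ) ^ 2) / (377 / 9252)) ^ r) := by
    rw [show r + 1 + 2 = r + 3 by ring, show 1 + (r + 1 + 1) = r + 3 by ring]
    exact alg _ _ _ _ _ (by norm_num) r
  rw [e3]
  have h1 : (1 : ℝ) < (1024 / 66049) * (245 / 1542) * (1 - (5 / 6 : ℝ) ^ 2) ^ 3
        / (377 / 9252) ^ 3 := by norm_num
  have h2 : (1 : ℝ) ≤ ((245 / 1542) * (1 - (5 / 6 : ℝ) ^ 2) / (377 / 9252)) ^ r :=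
    one_le_pow₀ (by norm_num)
  have h3 : (1 : ℝ) < ((1024 / 66049) * (245 / 1542) * (1 - (5 / 6 : ℝ) ^ 2) ^ 3
        / (377 / 9252) ^ 3) * ((245 / 1542) * (1 - (5 / 6 : ℝ) ^ 2) / (377 / 9252)) ^ r := by
    nlinarith
  calc ((r + 1 + 1).factorial : ℝ) = ((r + 1 + 1).factorial : ℝ) * 1 := (mul_one _).symm
    _ < _ := by
      apply mul_lt_mul_of_pos_left h3 hfac

end Pool.Agent.Results.MP_9404a8_an.HigherSchwarzianBoundFails
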